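import Pool.Agent.V11142.QB.SubB

/-!
# Equal subdivisions of quasi-banana graphs

`G` is a finite connected loopless multigraph with vertex set `V` and edge set `E`
(`QB.MGraph V E`).  `G.QuasiBanana` says that `gon_2(G) = gon_1(G) + 1` and that for some vertex `v`
the divisor with two chips on `v` and one chip on every other vertex realises `gon_2(G)`.
`G.subdiv m` is the graph in which every edge is replaced by a path with `m` new internal vertices,
and `ext m D` is the divisor `D` on `G` as a divisor on `G.subdiv m`.

The proof has three parts.  From `gon_1(G) = |V|` one gets a cover inequality: an effective divisor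
whose linear system reaches `c` vertices has degree at least `c`.  It forces every quasi-banana
graph to be a chain of cliques glued at hubs, with known multiplicities.  Second, in such a chain
the hub and the last block are joined by so many edges that divisors of small degree can only fire
them together; this holds in every subdivision and gives the lower bound `|V|` for the gonality by
induction.  Third, the vertices of `G` determine ranks.
-/

set_option autoImplicit false

namespace Pool.Agent.Results.MP_f3e214_co.EqualSubdivision

open Finset Pool.Agent.V11142.QB Pool.Agent.V11142.QB.MGraph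

variable {V E : Type} [Fintype V] [Fintype E] [DecidableEq V] [DecidableEq E]

theorem coverProp_of_gon {G : MGraph V E} [Nonempty V] (h : G.gon 1 = Fintype.card V) :
    G.CoverProp := by
  intro M h0 hcov
  have h1 : G.RankAtLeast M 1 := G.rankAtLeast_one_iff.2 hcov
  have h2 : 0 ≤ ∑ p, M p := sum_nonneg fun p _ => h0 p
  have h3 := G.gon_le (d := (∑ p, M p).toNat) (by rw [Int.toNat_of_nonneg h2]) h1
  rw [h] at h3
  omega

theorem lower {G : MGraph V E} {m : ℕ} {x v : V} (hC : Chain G univ x)
    {A : V ⊕ E × Fin m → ℤ} (hA : (G.subdiv m).RankAtLeast A 1) :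
    (Fintype.card V : ℤ) ≤ ∑ p, A p := by
  have hPhi := (phi_chain m hC).2
  have hcov := (G.subdiv m).rankAtLeast_one_iff.1 hA
  obtain ⟨f, hf, _⟩ := hcov (Sum.inl v)
  have huniv : (inside G univ ×ˢ univ : Finset (E × Fin (m + 1))) = univ := by
    ext
    simp [inside]
  have h1 := hPhi (fun p => A p - (G.subdiv m).lapOn univ f p) hf (fun u _ => by
    rw [huniv]
    refine (G.subdiv m).cov_of_equiv (hcov (Sum.inl u)) (-f) fun p => ?_
    rw [(G.subdiv m).lapOn_neg]
    linarith)
  rw [sum_sub_distrib, (G.subdiv m).sum_lapOn, sub_zero] at h1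
  exact h1

/-- **Equal subdivisions of quasi-banana graphs.**  Let `G` be a quasi-banana graph and let every
edge of `G` be replaced by a path with `m` new internal vertices.  The resulting graph is
gonality-tight, and every divisor on `G` which realises the second gonality of `G` realises the
second gonality of the new graph. -/
theorem result {V E : Type} [Fintype V] [Fintype E] [DecidableEq V] [DecidableEq E]
    (G : MGraph V E) (hG : G.QuasiBanana) (m : ℕ) :
    (G.subdiv m).Tight ∧
      ∀ D : V → ℤ, G.Realises D 2 → (G.subdiv m).Realises (ext m D) 2 := by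
  classical
  obtain ⟨hT, v, ⟨hr, _⟩, hsum⟩ := hG
  haveI : Nonempty V := ⟨v⟩
  haveI : Nonempty (V ⊕ E × Fin m) := ⟨Sum.inl v⟩
  set n := Fintype.card V with hn
  have hsumv : ∑ w : V, ((1 : ℤ) + if w = v then 1 else 0) = n + 1 := by
    rw [sum_add_distrib]
    simp [hn]
  have hg2 : G.gon 2 = n + 1 := by
    have : ((G.gon 2 : ℕ) : ℤ) = ((n + 1 : ℕ) : ℤ) := by
      rw [← hsum, hsumv]
      push_cast
      ring
    exact_mod_cast this
  have hg1 : G.gon 1 = n := by
    unfold Tight at hT
    omega
  have hP := coverProp_of_gon (G := G) hg1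
  -- the initial state
  have hSt : St G {v} v := by
    refine ⟨mem_singleton_self v, fun u hu huv => absurd (mem_singleton.1 hu) huv, ?_, ?_⟩
    · intro u hu
      rw [mem_singleton.1 hu]
      refine G.cov_self (fun p => ?_) ?_
      · split_ifs
        · positivity
        · exact le_rfl
      · rw [if_pos rfl, card_singleton]
        norm_num
    · intro w
      obtain ⟨D', h0, f, hf⟩ := hr (Pi.single w 1 + Pi.single w 1)
        (add_nonneg (single_nonneg w) (single_nonneg w)) (by
          simp only [Pi.add_apply, sum_add_distrib, sum_single]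
          norm_num)
      have hval : ∀ p, est {v} v p - G.lapOn univ f p =
          D' p + ((Pi.single w 1 : V → ℤ) p + (Pi.single w 1 : V → ℤ) p) := by
        intro p
        have h1 := congrFun hf p
        simp only [Pi.sub_apply, Pi.add_apply] at h1
        rw [lap_eq_lapOn] at h1
        have h2 : est {v} v p = 1 + if p = v then 1 else 0 := by
          unfold est
          rw [card_singleton]
          simp only [mem_singleton]
          split_ifs <;> norm_num
        rw [h2]
        linarith
      refine ⟨f, fun p => ?_, ?_⟩
      · rw [hval]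
        have h1 := h0 p
        have h2 := single_nonneg w p
        simp only [Pi.zero_apply] at h1 h2
        linarith
      · rw [hval]
        have h1 := h0 w
        simp only [Pi.zero_apply] at h1
        simp only [Pi.single_eq_same]
        linarith
  obtain ⟨x, hC⟩ := exists_chain hP _ {v} v rfl hSt (Chain.base v)
  have hlow : ∀ A : V ⊕ E × Fin m → ℤ, (G.subdiv m).RankAtLeast A 1 → (n : ℤ) ≤ ∑ p, A p :=
    fun A hA => lower (v := v) hC hA
  have hlow2 : ∀ A : V ⊕ E × Fin m → ℤ, (G.subdiv m).RankAtLeast A 2 →
      (n : ℤ) + 1 ≤ ∑ p, A p := by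
    intro A hA
    have h1 := hlow _ ((G.subdiv m).rankAtLeast_succ.1 hA (Sum.inl v))
    rw [sum_sub_single] at h1
    linarith
  have hsumext : ∀ D : V → ℤ, ∑ p, ext (E := E) m D p = ∑ w, D w := by
    intro D
    rw [Fintype.sum_sum_type]
    simp
  have hrext := G.rank_two_ext (m := m) hr
  have hsumv' : ∑ p, ext (E := E) m (fun w => 1 + if w = v then 1 else 0) p =
      ((n + 1 : ℕ) : ℤ) := by
    rw [hsumext, hsumv]
    push_cast
    ring
  have hG2 : (G.subdiv m).gon 2 = n + 1 := by
    refine le_antisymm ((G.subdiv m).gon_le hsumv' hrext) ?_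
    refine (G.subdiv m).le_gon fun A hA => ?_
    push_cast
    exact hlow2 A hA
  have hG1 : (G.subdiv m).gon 1 = n := by
    refine le_antisymm ?_ ((G.subdiv m).le_gon fun A hA => hlow A hA)
    refine (G.subdiv m).gon_le (M := ext m (fun w => 1 + if w = v then 1 else 0) -
      Pi.single (Sum.inl v) 1) ?_ ((G.subdiv m).rankAtLeast_succ.1 hrext (Sum.inl v))
    rw [sum_sub_single, hsumv']
    push_cast
    ring
  refine ⟨?_, ?_⟩
  · unfold Tight
    rw [hG2, hG1]
  · rintro D ⟨⟨hD, _⟩, hDsum⟩
    rw [hg2] at hDsum
    have hDsum' : ∑ p, ext (E := E) m D p = ((n + 1 : ℕ) : ℤ) := by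
      rw [hsumext, hDsum]
    refine ⟨⟨G.rank_two_ext hD, ?_⟩, ?_⟩
    · intro h3
      have h4 := hlow2 _ ((G.subdiv m).rankAtLeast_succ.1 h3 (Sum.inl v))
      rw [sum_sub_single, hDsum'] at h4
      push_cast at h4
      linarith
    · rw [hDsum', hG2]

end Pool.Agent.Results.MP_f3e214_co.EqualSubdivision
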